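import Pool.Agent.H320R2.LD.MGF

set_option autoImplicit false

/-!
# The Kikuchi quadratic form for `r = 2`: the Lipschitz bound
-/

namespace Pool.Agent.Y976.Kik

open Finset Pool.Agent.H320R2.LD

noncomputable section

/-- `l`-subsets -/
abbrev KS (n l : ℕ) : Type := {K : Finset (Fin n) // K.card = l}

/-- the quadratic form -/
def B {n l : ℕ} (Z : Finset (Fin n) → ℝ) (v : KS n l → ℝ) : ℝ :=
  ∑ I : KS n l, ∑ J : KS n l, if (symmDiff I.1 J.1).card = 2 then
    v I * v J * Z (symmDiff I.1 J.1) else 0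

/-- pairs that differ by the exchange of `i` and `j` -/
def PP (n l : ℕ) (i j : Fin n) : Finset (KS n l × KS n l) :=
  univ.filter (fun p => i ∈ p.1.1 ∧ j ∈ p.2.1 ∧ symmDiff p.1.1 p.2.1 = {i, j})

/-- mass of the sets through `i` -/
def N2 {n l : ℕ} (v : KS n l → ℝ) (i : Fin n) : ℝ :=
  ∑ I ∈ univ.filter (fun I : KS n l => i ∈ I.1), v I ^ 2

theorem N2_nonneg {n l : ℕ} (v : KS n l → ℝ) (i : Fin n) : 0 ≤ N2 v i :=
  sum_nonneg fun _ _ => sq_nonneg _

theorem sum_N2 {n l : ℕ} (v : KS n l → ℝ) : ∑ i, N2 v i = l * ∑ I, v I ^ 2 := by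
  unfold N2
  simp_rw [sum_filter]
  rw [sum_comm, mul_sum]
  refine sum_congr rfl fun I _ => ?_
  rw [← sum_filter, sum_const, nsmul_eq_mul]
  congr 2
  have : univ.filter (fun i => i ∈ I.1) = I.1 := by ext i; simp
  rw [this, I.2]

theorem T_sq {n l : ℕ} (v : KS n l → ℝ) (i j : Fin n) :
    (∑ p ∈ PP n l i j, |v p.1| * |v p.2|) ^ 2 ≤ N2 v i * N2 v j := by
  have h1 := sum_mul_sq_le_sq_mul_sq (PP n l i j) (fun p => |v p.1|) (fun p => |v p.2|)
  have h2 : ∑ p ∈ PP n l i j, |v p.1| ^ 2 ≤ N2 v i := by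
    have hinj : Set.InjOn Prod.fst (PP n l i j : Set (KS n l × KS n l)) := by
      rintro ⟨I, J⟩ hp ⟨I', J'⟩ hq h
      simp only [PP, coe_filter, mem_univ, true_and, Set.mem_ofPred_eq] at hp hq h
      subst h
      congr 1
      apply Subtype.ext
      have h3 : symmDiff I.1 J.1 = symmDiff I.1 J'.1 := by rw [hp.2.2, hq.2.2]
      exact symmDiff_right_injective I.1 h3
    calc ∑ p ∈ PP n l i j, |v p.1| ^ 2 = ∑ I ∈ (PP n l i j).image Prod.fst, |v I| ^ 2 := by
          rw [sum_image hinj]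
      _ ≤ ∑ I ∈ univ.filter (fun I : KS n l => i ∈ I.1), |v I| ^ 2 := by
          apply sum_le_sum_of_subset_of_nonneg
          · intro I hI
            rw [mem_image] at hI
            obtain ⟨p, hp, rfl⟩ := hI
            simp only [PP, mem_filter, mem_univ, true_and] at hp ⊢
            exact hp.1
          · intro I _ _
            positivity
      _ = N2 v i := by
          unfold N2
          exact sum_congr rfl fun I _ => sq_abs _
  have h3 : ∑ p ∈ PP n l i j, |v p.2| ^ 2 ≤ N2 v j := by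
    have hinj : Set.InjOn Prod.snd (PP n l i j : Set (KS n l × KS n l)) := by
      rintro ⟨I, J⟩ hp ⟨I', J'⟩ hq h
      simp only [PP, coe_filter, mem_univ, true_and, Set.mem_ofPred_eq] at hp hq h
      subst h
      congr 1
      apply Subtype.ext
      have h3 : symmDiff I.1 J.1 = symmDiff I'.1 J.1 := by rw [hp.2.2, hq.2.2]
      exact symmDiff_left_injective J.1 h3
    calc ∑ p ∈ PP n l i j, |v p.2| ^ 2 = ∑ I ∈ (PP n l i j).image Prod.snd, |v I| ^ 2 := by
          rw [sum_image hinj]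
      _ ≤ ∑ I ∈ univ.filter (fun I : KS n l => j ∈ I.1), |v I| ^ 2 := by
          apply sum_le_sum_of_subset_of_nonneg
          · intro I hI
            rw [mem_image] at hI
            obtain ⟨p, hp, rfl⟩ := hI
            simp only [PP, mem_filter, mem_univ, true_and] at hp ⊢
            exact hp.2.1
          · intro I _ _
            positivity
      _ = N2 v j := by
          unfold N2
          exact sum_congr rfl fun I _ => sq_abs _
  refine h1.trans ?_
  exact mul_le_mul h2 h3 (sum_nonneg fun _ _ => by positivity) (N2_nonneg v i)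

/-- exchanged elements -/
theorem exists_ij {n l : ℕ} (I J : KS n l) (h : (symmDiff I.1 J.1).card = 2) :
    ∃ i j : Fin n, i ≠ j ∧ i ∈ I.1 ∧ j ∈ J.1 ∧ symmDiff I.1 J.1 = {i, j} := by
  have h1 : (symmDiff I.1 J.1).card = (I.1 \ J.1).card + (J.1 \ I.1).card := by
    rw [symmDiff_def, sup_eq_union, card_union_of_disjoint]
    exact disjoint_sdiff_sdiff
  have h2 : (I.1 \ J.1).card = (J.1 \ I.1).card := by
    have a := card_sdiff_add_card_inter I.1 J.1
    have b := card_sdiff_add_card_inter J.1 I.1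
    rw [inter_comm, J.2] at b
    rw [I.2] at a
    omega
  have h3 : (I.1 \ J.1).card = 1 := by omega
  have h4 : (J.1 \ I.1).card = 1 := by omega
  obtain ⟨i, hi⟩ := card_eq_one.1 h3
  obtain ⟨j, hj⟩ := card_eq_one.1 h4
  have hi' : i ∈ I.1 \ J.1 := by rw [hi]; exact mem_singleton_self i
  have hj' : j ∈ J.1 \ I.1 := by rw [hj]; exact mem_singleton_self j
  rw [mem_sdiff] at hi' hj'
  refine ⟨i, j, ?_, hi'.1, hj'.1, ?_⟩
  · rintro rfl
    exact hi'.2 hj'.1
  · rw [symmDiff_def, hi, hj]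
    rfl

/-- the bound by sums over exchanged pairs -/
theorem B_le_sum {n l : ℕ} (W : Finset (Fin n) → ℝ) (v : KS n l → ℝ) :
    |B W v| ≤ ∑ q ∈ (univ : Finset (Fin n × Fin n)).filter (fun q => q.1 ≠ q.2),
      |W {q.1, q.2}| * ∑ p ∈ PP n l q.1 q.2, |v p.1| * |v p.2| := by
  have h1 : |B W v| ≤ ∑ p : KS n l × KS n l, |if (symmDiff p.1.1 p.2.1).card = 2 then
      v p.1 * v p.2 * W (symmDiff p.1.1 p.2.1) else 0| := by
    unfold B
    rw [← sum_product', univ_product_univ]
    exact abs_sum_le_sum_abs _ _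
  refine h1.trans ?_
  have h2 : ∀ q : Fin n × Fin n, |W {q.1, q.2}| * ∑ p ∈ PP n l q.1 q.2, |v p.1| * |v p.2| =
      ∑ p : KS n l × KS n l, if p ∈ PP n l q.1 q.2 then |W {q.1, q.2}| * (|v p.1| * |v p.2|)
        else 0 := by
    intro q
    rw [mul_sum, ← sum_filter]
    congr 1
    ext p
    simp
  simp_rw [h2]
  rw [sum_comm]
  apply sum_le_sum
  rintro ⟨I, J⟩ _
  by_cases h : (symmDiff I.1 J.1).card = 2
  · obtain ⟨i, j, hij, hi, hj, he⟩ := exists_ij I J h
    simp only [if_pos h]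
    have h3 : |v I * v J * W (symmDiff I.1 J.1)| =
        (if (I, J) ∈ PP n l i j then |W {i, j}| * (|v I| * |v J|) else 0) := by
      rw [if_pos, he, abs_mul, abs_mul]
      · ring
      · simp only [PP, mem_filter, mem_univ, true_and]
        exact ⟨hi, hj, he⟩
    rw [h3]
    exact single_le_sum (f := fun q : Fin n × Fin n => if (I, J) ∈ PP n l q.1 q.2 then
      |W {q.1, q.2}| * (|v I| * |v J|) else 0)
      (fun q _ => by split_ifs <;> positivity)
      (show ((i, j) : Fin n × Fin n) ∈ (univ : Finset (Fin n × Fin n)).filter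
        (fun q => q.1 ≠ q.2) by simp [hij])
  · simp only [if_neg h, abs_zero]
    apply sum_nonneg
    intro q _
    split_ifs <;> positivity

theorem sum_W {n : ℕ} (W : Finset (Fin n) → ℝ) :
    ∑ q ∈ (univ : Finset (Fin n × Fin n)).filter (fun q => q.1 ≠ q.2), |W {q.1, q.2}| ^ 2 ≤
      2 * nsq W := by
  have hmaps : ∀ q ∈ (univ : Finset (Fin n × Fin n)).filter (fun q => q.1 ≠ q.2),
      (({q.1, q.2} : Finset (Fin n))) ∈ (univ : Finset (Finset (Fin n))) := fun _ _ => mem_univ _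
  rw [← sum_fiberwise_of_maps_to hmaps]
  unfold nsq
  rw [mul_sum]
  apply sum_le_sum
  intro S _
  have h1 : ∑ q ∈ ((univ : Finset (Fin n × Fin n)).filter (fun q => q.1 ≠ q.2)).filter
      (fun q => ({q.1, q.2} : Finset (Fin n)) = S), |W {q.1, q.2}| ^ 2 =
      ∑ _q ∈ ((univ : Finset (Fin n × Fin n)).filter (fun q => q.1 ≠ q.2)).filter
      (fun q => ({q.1, q.2} : Finset (Fin n)) = S), W S ^ 2 := by
    apply sum_congr rfl
    intro q hq
    rw [mem_filter] at hq
    rw [hq.2, sq_abs]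
  rw [h1, sum_const, nsmul_eq_mul]
  apply mul_le_mul_of_nonneg_right _ (sq_nonneg _)
  by_cases hne : (((univ : Finset (Fin n × Fin n)).filter (fun q => q.1 ≠ q.2)).filter
      (fun q => ({q.1, q.2} : Finset (Fin n)) = S)).Nonempty
  · obtain ⟨⟨a, b⟩, hab⟩ := hne
    simp only [mem_filter, mem_univ, true_and] at hab
    obtain ⟨hab, hS⟩ := hab
    have hsub : ((univ : Finset (Fin n × Fin n)).filter (fun q => q.1 ≠ q.2)).filter
      (fun q => ({q.1, q.2} : Finset (Fin n)) = S) ⊆ {(a, b), (b, a)} := by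
      rintro ⟨c, d⟩ hcd
      simp only [mem_filter, mem_univ, true_and] at hcd
      obtain ⟨hcd, hS'⟩ := hcd
      rw [← hS] at hS'
      have hc : c ∈ ({a, b} : Finset (Fin n)) := by rw [← hS']; simp
      have hd : d ∈ ({a, b} : Finset (Fin n)) := by rw [← hS']; simp
      simp only [mem_insert, mem_singleton] at hc hd ⊢
      rcases hc with rfl | rfl <;> rcases hd with rfl | rfl
      · exact absurd rfl hcd
      · left; rfl
      · right; rfl
      · exact absurd rfl hcd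
    have h2 := (card_le_card hsub).trans card_le_two
    exact_mod_cast h2
  · rw [not_nonempty_iff_eq_empty] at hne
    rw [hne, card_empty]
    norm_num

/-- **The Lipschitz bound.** -/
theorem B_bound {n l : ℕ} (W : Finset (Fin n) → ℝ) (v : KS n l → ℝ) (hv : ∑ I, v I ^ 2 = 1) :
    |B W v| ≤ (2 * (l + 1)) * nrm W := by
  have h1 := B_le_sum W v
  have h0 : 0 ≤ ∑ q ∈ (univ : Finset (Fin n × Fin n)).filter (fun q => q.1 ≠ q.2),
      |W {q.1, q.2}| * ∑ p ∈ PP n l q.1 q.2, |v p.1| * |v p.2| :=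
    sum_nonneg fun q _ => mul_nonneg (abs_nonneg _) (sum_nonneg fun p _ => by positivity)
  have h2 := sum_mul_sq_le_sq_mul_sq ((univ : Finset (Fin n × Fin n)).filter (fun q => q.1 ≠ q.2))
    (fun q => |W {q.1, q.2}|) (fun q => ∑ p ∈ PP n l q.1 q.2, |v p.1| * |v p.2|)
  have h3 : ∑ q ∈ (univ : Finset (Fin n × Fin n)).filter (fun q => q.1 ≠ q.2),
      (∑ p ∈ PP n l q.1 q.2, |v p.1| * |v p.2|) ^ 2 ≤ (l : ℝ) ^ 2 := by
    calc _ ≤ ∑ q : Fin n × Fin n, (∑ p ∈ PP n l q.1 q.2, |v p.1| * |v p.2|) ^ 2 :=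
          sum_le_sum_of_subset_of_nonneg (filter_subset _ _) fun _ _ _ => sq_nonneg _
      _ ≤ ∑ q : Fin n × Fin n, N2 v q.1 * N2 v q.2 := sum_le_sum fun q _ => T_sq v q.1 q.2
      _ = (∑ i, N2 v i) * ∑ j, N2 v j := by
          rw [← univ_product_univ, sum_product, sum_mul_sum]
      _ = (l : ℝ) ^ 2 := by rw [sum_N2, hv]; ring
  have h4 := sum_W W
  have h5 : (∑ q ∈ (univ : Finset (Fin n × Fin n)).filter (fun q => q.1 ≠ q.2),
      |W {q.1, q.2}| * ∑ p ∈ PP n l q.1 q.2, |v p.1| * |v p.2|) ^ 2 ≤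
      ((2 * (l + 1)) * nrm W) ^ 2 := by
    refine h2.trans ?_
    have h6 : nrm W ^ 2 = nsq W := Real.sq_sqrt (sum_nonneg fun _ _ => sq_nonneg _)
    have h7 : 0 ≤ nsq W := sum_nonneg fun _ _ => sq_nonneg _
    calc _ ≤ (2 * nsq W) * (l : ℝ) ^ 2 := mul_le_mul h4 h3 (sum_nonneg fun _ _ => sq_nonneg _)
          (by positivity)
      _ ≤ _ := by
          rw [mul_pow, h6]
          nlinarith [mul_nonneg h7 (Nat.cast_nonneg (α := ℝ) l),
            mul_nonneg h7 (sq_nonneg (l : ℝ))]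
  have h8 : 0 ≤ (2 * ((l : ℝ) + 1)) * nrm W := by
    have : 0 ≤ nrm W := Real.sqrt_nonneg _
    positivity
  exact h1.trans (abs_le_of_sq_le_sq' h5 h8).2

end

end Pool.Agent.Y976.Kik
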