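import Pool.Agent.Y976.Kik.Chi
import Pool.Agent.Y976.Kik.Lip

set_option autoImplicit false

/-!
# For `r = 2` the top eigenvalue of the Kikuchi matrix does not see a weak spike
-/

namespace Pool.Agent.Y976.Kik

open MeasureTheory ProbabilityTheory Pool.Agent.H320R2.LD Finset
open scoped ENNReal

noncomputable section

variable {n l : ℕ}

/-- the values of the quadratic form on the unit sphere -/
def VS (l : ℕ) (W : Finset (Fin n) → ℝ) : Set ℝ :=
  {t : ℝ | ∃ v : KS n l → ℝ, dotProduct v v = 1 ∧ t = B W v}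

/-- the largest eigenvalue -/
def FF (l : ℕ) (W : Finset (Fin n) → ℝ) : ℝ := sSup (VS l W)

theorem dot_sq (v : KS n l → ℝ) : dotProduct v v = ∑ I, v I ^ 2 := by
  unfold dotProduct
  exact sum_congr rfl fun I _ => by ring

theorem VS_bdd (W : Finset (Fin n) → ℝ) : BddAbove (VS l W) := by
  refine ⟨(2 * (l + 1)) * nrm W, ?_⟩
  rintro t ⟨v, hv, rfl⟩
  rw [dot_sq] at hv
  exact (le_abs_self _).trans (B_bound W v hv)

/-- the coordinate vector -/
def ev (I : KS n l) : KS n l → ℝ := fun J => if J = I then 1 else 0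

theorem VS_nonempty (hn : l ≤ n) (W : Finset (Fin n) → ℝ) : (VS l W).Nonempty := by
  obtain ⟨K, -, hK⟩ := exists_subset_card_eq (s := (univ : Finset (Fin n))) (n := l)
    (by rw [card_univ, Fintype.card_fin]; exact hn)
  refine ⟨_, ev ⟨K, hK⟩, ?_, rfl⟩
  rw [dot_sq]
  unfold ev
  simp

theorem B_sub (W W' : Finset (Fin n) → ℝ) (v : KS n l → ℝ) : B W v - B W' v = B (W - W') v := by
  unfold B
  rw [← sum_sub_distrib]
  refine sum_congr rfl fun I _ => ?_
  rw [← sum_sub_distrib]
  refine sum_congr rfl fun J _ => ?_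
  split_ifs
  · simp only [Pi.sub_apply]; ring
  · ring

theorem FF_le (hn : l ≤ n) (W W' : Finset (Fin n) → ℝ) :
    FF l W ≤ FF l W' + (2 * (l + 1)) * nrm (W - W') := by
  apply csSup_le (VS_nonempty hn W)
  rintro t ⟨v, hv, rfl⟩
  have h1 : B W' v ≤ FF l W' := le_csSup (VS_bdd W') ⟨v, hv, rfl⟩
  have h2 := B_sub W W' v
  rw [dot_sq] at hv
  have h3 := (le_abs_self _).trans (B_bound (W - W') v hv)
  linarith

theorem nrm_symm (W W' : Finset (Fin n) → ℝ) : nrm (W - W') = nrm (W' - W) := by
  unfold nrm nsq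
  congr 1
  exact sum_congr rfl fun i _ => by simp only [Pi.sub_apply]; ring

theorem FF_lip (hn : l ≤ n) : Lip (2 * ((l : ℝ) + 1)) (FF (n := n) l) := by
  intro W W'
  rw [abs_le]
  have h1 := FF_le hn W W'
  have h2 := FF_le hn W' W
  rw [nrm_symm W' W] at h2
  constructor <;> linarith

theorem lip_pos : (0 : ℝ) < 2 * ((l : ℝ) + 1) := by positivity

theorem FF_meas (hn : l ≤ n) : Measurable (FF (n := n) l) :=
  (MGF.lip_continuous lip_pos.le (FF_lip hn)).measurable

theorem B_sign (x : Fin n → ℤˣ) (W : Finset (Fin n) → ℝ) (v : KS n l → ℝ) :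
    B (fun S => sg x S * W S) v = B W (fun I => sg x I.1 * v I) := by
  unfold B
  refine sum_congr rfl fun I _ => sum_congr rfl fun J _ => ?_
  split_ifs
  · simp only
    rw [sg_symmDiff]; ring
  · rfl

theorem FF_sign (x : Fin n → ℤˣ) (W : Finset (Fin n) → ℝ) :
    FF l (fun S => sg x S * W S) = FF l W := by
  have h : ∀ W : Finset (Fin n) → ℝ, VS l (fun S => sg x S * W S) ⊆ VS l W := by
    rintro W t ⟨v, hv, rfl⟩
    refine ⟨fun I => sg x I.1 * v I, ?_, B_sign x W v⟩
    rw [dot_sq] at hv ⊢
    rw [← hv]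
    refine sum_congr rfl fun I _ => ?_
    rw [mul_pow, sg_sq, one_mul]
  unfold FF
  congr 1
  apply subset_antisymm (h W)
  have h2 := h (fun S => sg x S * W S)
  have h3 : (fun S => sg x S * (sg x S * W S)) = W := by
    funext S
    rw [← mul_assoc, ← sq, sg_sq, one_mul]
  simp only [h3] at h2
  exact h2

theorem FF_two (W W' : Finset (Fin n) → ℝ) (h : ∀ S, S.card = 2 → W S = W' S) :
    FF l W = FF l W' := by
  have h1 : ∀ v : KS n l → ℝ, B W v = B W' v := by
    intro v
    unfold B
    refine sum_congr rfl fun I _ => sum_congr rfl fun J _ => ?_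
    split_ifs with h2
    · rw [h _ h2]
    · rfl
  unfold FF VS
  simp_rw [h1]

/-- the expectation with a spike -/
theorem spike_eq (hn : l ≤ n) (c : ℝ) (x : Fin n → ℤˣ) :
    ∫ Z, FF l (fun S => c + Z S) ∂(gam (Finset (Fin n))) =
      ∫ Z, FF l Z * cmd (bb c x) Z ∂(gam (Finset (Fin n))) := by
  have hm : Measurable (fun Z : Finset (Fin n) → ℝ => FF l (fun S => c + Z S)) := by
    apply (FF_meas hn).comp
    fun_prop
  rw [← sign_int (sg x) (sg_sq x) _ hm, ← cm_int (bb c x) (FF l) (FF_meas hn)]
  refine integral_congr_ae (Filter.Eventually.of_forall fun Z => ?_)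
  simp only
  rw [← FF_sign x (Z + bb c x)]
  apply FF_two
  intro S hS
  simp only [Pi.add_apply, bb, if_pos hS]
  have := sg_sq x S
  linear_combination (-c) * this

theorem lip_shift {V : Type} [Fintype V] {L : ℝ} {f : (V → ℝ) → ℝ} (hf : Lip L f) (b : V → ℝ) :
    Lip L (fun x => f (x + b)) := by
  intro x y
  have h := hf (x + b) (y + b)
  rwa [add_sub_add_right_eq_sub] at h

theorem FF_cmd_integrable (hn : l ≤ n) (b : Finset (Fin n) → ℝ) :
    Integrable (fun Z => FF l Z * cmd b Z) (gam (Finset (Fin n))) := by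
  apply cm_integrable b _ (FF_meas hn)
  exact (prove_MGF _ _ _ lip_pos (lip_shift (FF_lip hn) b)).1

theorem spike_LR (hn : l ≤ n) (c : ℝ) :
    ∫ Z, FF l (fun S => c + Z S) ∂(gam (Finset (Fin n))) =
      ∫ Z, FF l Z * LR c Z ∂(gam (Finset (Fin n))) := by
  have h1 : ∀ Z : Finset (Fin n) → ℝ, FF l Z * LR c Z =
      (∑ x : Fin n → ℤˣ, FF l Z * cmd (bb c x) Z) / 2 ^ n := by
    intro Z
    unfold LR av
    rw [← mul_sum]
    ring
  simp_rw [h1]
  rw [integral_div, integral_finsetSum _ (fun x _ => FF_cmd_integrable hn _)]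
  simp_rw [← spike_eq hn c]
  rw [sum_const, card_univ, card_signs, nsmul_eq_mul]
  push_cast
  field_simp

theorem FF_LR_integrable (hn : l ≤ n) (c : ℝ) :
    Integrable (fun Z => FF l Z * LR c Z) (gam (Finset (Fin n))) := by
  have h1 : ∀ Z : Finset (Fin n) → ℝ, FF l Z * LR c Z =
      (∑ x : Fin n → ℤˣ, FF l Z * cmd (bb c x) Z) / 2 ^ n := by
    intro Z
    unfold LR av
    rw [← mul_sum]
    ring
  simp_rw [h1]
  exact (integrable_finsetSum _ (fun x _ => FF_cmd_integrable hn _)).div_const _

theorem sq_le_exp (y : ℝ) : y ^ 2 ≤ 2 * (Real.exp y + Real.exp (-y)) := by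
  have h1 := Real.exp_pos y
  have h2 := Real.exp_pos (-y)
  rcases le_total 0 y with hy | hy
  · have h := Real.quadratic_le_exp_of_nonneg hy
    nlinarith
  · have h := Real.quadratic_le_exp_of_nonneg (neg_nonneg.2 hy)
    nlinarith

/-- the variance -/
theorem var_bound {V : Type} [Fintype V] {L : ℝ} {f : (V → ℝ) → ℝ} (hL : 0 < L) (hf : Lip L f) :
    Integrable (fun x => (f x - ∫ y, f y ∂(gam V)) ^ 2) (gam V) ∧
    ∫ x, (f x - ∫ y, f y ∂(gam V)) ^ 2 ∂(gam V) ≤ 4 * Real.exp (L ^ 2) := by
  obtain ⟨h1, h2, h3⟩ := prove_MGF V f L hL hf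
  set m := ∫ y, f y ∂(gam V) with hm
  have i1 : Integrable (fun x => Real.exp (f x - m)) (gam V) := by
    have h := (h2 1).mul_const (Real.exp (-m))
    refine h.congr (Filter.Eventually.of_forall fun x => ?_)
    simp only [one_mul]
    rw [← Real.exp_add, sub_eq_add_neg]
  have i2 : Integrable (fun x => Real.exp (-(f x - m))) (gam V) := by
    have h := (h2 (-1)).mul_const (Real.exp m)
    refine h.congr (Filter.Eventually.of_forall fun x => ?_)
    simp only
    rw [← Real.exp_add]
    congr 1
    ring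
  have hint : Integrable (fun x => (f x - m) ^ 2) (gam V) := by
    refine ((i1.add i2).const_mul 2).mono' ?_ (Filter.Eventually.of_forall fun x => ?_)
    · exact ((h1.aestronglyMeasurable.sub aestronglyMeasurable_const).pow 2)
    · rw [Real.norm_eq_abs, abs_of_nonneg (sq_nonneg _)]
      exact sq_le_exp _
  refine ⟨hint, ?_⟩
  have h4 := h3 1
  have h5 := h3 (-1)
  simp only [one_mul, one_pow, neg_mul, even_two, Even.neg_pow] at h4 h5
  calc ∫ x, (f x - m) ^ 2 ∂(gam V) ≤
        ∫ x, 2 * (Real.exp (f x - m) + Real.exp (-(f x - m))) ∂(gam V) :=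
        integral_mono hint ((i1.add i2).const_mul 2) fun x => sq_le_exp _
    _ = 2 * ((∫ x, Real.exp (f x - m) ∂(gam V)) + ∫ x, Real.exp (-(f x - m)) ∂(gam V)) := by
        rw [integral_const_mul, integral_add i1 i2]
    _ ≤ 4 * Real.exp (L ^ 2) := by linarith

/-- **The spike changes the expectation by a bounded amount.** -/
theorem spike_bound (hl : l ≤ n) (hn : 0 < n) (c : ℝ) (hc : c ^ 2 = 1 / (4 * n)) :
    ∫ Z, FF l (fun S => c + Z S) ∂(gam (Finset (Fin n))) ≤
      ∫ Z, FF l Z ∂(gam (Finset (Fin n))) +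
        (2 * Real.exp ((2 * ((l : ℝ) + 1)) ^ 2) + (CX + 1) / 2) := by
  rw [spike_LR hl c]
  have hv := var_bound lip_pos (FF_lip (n := n) hl)
  obtain ⟨h1, -, -⟩ := prove_MGF _ _ _ lip_pos (FF_lip (n := n) hl)
  set m := ∫ Z, FF l Z ∂(gam (Finset (Fin n))) with hm
  have i1 := FF_LR_integrable hl c (n := n)
  have i2 := LR_integrable (n := n) c
  have i3 := LR_sq_integrable (n := n) c
  have h2 := LR_integral (n := n) c
  have h3 := LR_sq_integral hn c hc
  have hint : Integrable (fun Z => (LR (n := n) c Z - 1) ^ 2) (gam (Finset (Fin n))) := by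
    have : ∀ Z : Finset (Fin n) → ℝ, (LR c Z - 1) ^ 2 = LR c Z ^ 2 - 2 * LR c Z + 1 := by
      intro Z; ring
    simp_rw [this]
    exact (i3.sub (i2.const_mul 2)).add (integrable_const 1)
  have h4 : ∫ Z, (LR (n := n) c Z - 1) ^ 2 ∂(gam (Finset (Fin n))) ≤ CX + 1 := by
    have e : ∀ Z : Finset (Fin n) → ℝ, (LR c Z - 1) ^ 2 = LR c Z ^ 2 - 2 * LR c Z + 1 := by
      intro Z; ring
    have j1 : Integrable (fun Z => LR (n := n) c Z ^ 2 - 2 * LR c Z) (gam (Finset (Fin n))) :=
      i3.sub (i2.const_mul 2)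
    have j2 : Integrable (fun Z => 2 * LR (n := n) c Z) (gam (Finset (Fin n))) := i2.const_mul 2
    simp_rw [e]
    rw [integral_add j1 (integrable_const 1), integral_sub i3 j2, integral_const_mul, h2]
    simp only [integral_const, probReal_univ, smul_eq_mul, mul_one]
    linarith
  have h5 : ∫ Z, FF l Z * LR c Z ∂(gam (Finset (Fin n))) - m =
      ∫ Z, (FF l Z - m) * (LR c Z - 1) ∂(gam (Finset (Fin n))) := by
    have e : ∀ Z : Finset (Fin n) → ℝ, (FF l Z - m) * (LR c Z - 1) =
        FF l Z * LR c Z - FF l Z - m * (LR c Z - 1) := by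
      intro Z; ring
    have j1 : Integrable (fun Z => FF l Z * LR c Z - FF l Z) (gam (Finset (Fin n))) :=
      i1.sub h1
    have j2 : Integrable (fun Z => LR (n := n) c Z - 1) (gam (Finset (Fin n))) :=
      i2.sub (integrable_const 1)
    have j3 : Integrable (fun Z => m * (LR (n := n) c Z - 1)) (gam (Finset (Fin n))) :=
      j2.const_mul m
    simp_rw [e]
    rw [integral_sub j1 j3, integral_sub i1 h1, integral_const_mul,
      integral_sub i2 (integrable_const 1), h2]
    simp only [integral_const, probReal_univ, smul_eq_mul, mul_one]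
    rw [← hm]
    ring
  have h6 : ∫ Z, (FF l Z - m) * (LR c Z - 1) ∂(gam (Finset (Fin n))) ≤
      ∫ Z, ((FF l Z - m) ^ 2 / 2 + (LR c Z - 1) ^ 2 / 2) ∂(gam (Finset (Fin n))) := by
    apply integral_mono
    · have e : ∀ Z : Finset (Fin n) → ℝ, (FF l Z - m) * (LR c Z - 1) =
        FF l Z * LR c Z - FF l Z - m * (LR c Z - 1) := by
        intro Z; ring
      simp_rw [e]
      exact (i1.sub h1).sub ((i2.sub (integrable_const 1)).const_mul m)
    · exact (hv.1.div_const 2).add (hint.div_const 2)
    · intro Z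
      simp only
      nlinarith [sq_nonneg ((FF l Z - m) - (LR c Z - 1))]
  rw [integral_add (hv.1.div_const 2) (hint.div_const 2), integral_div, integral_div] at h6
  have h7 := hv.2
  linarith

/-! ### The expectation without spike tends to infinity -/

theorem FF_nonneg (hl : l ≤ n) (W : Finset (Fin n) → ℝ) : 0 ≤ FF l W := by
  obtain ⟨K, -, hK⟩ := exists_subset_card_eq (s := (univ : Finset (Fin n))) (n := l)
    (by rw [card_univ, Fintype.card_fin]; exact hl)
  refine le_csSup (VS_bdd W) ⟨ev ⟨K, hK⟩, ?_, ?_⟩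
  · rw [dot_sq]
    unfold ev
    simp
  · unfold B ev
    symm
    apply sum_eq_zero
    intro I _
    apply sum_eq_zero
    intro J _
    by_cases h1 : I = ⟨K, hK⟩
    · by_cases h2 : J = ⟨K, hK⟩
      · subst h1 h2
        simp
      · simp [h2]
    · simp [h1]

theorem FF_ge_one (hl : 1 ≤ l) (hn : l + 1 ≤ n) (W : Finset (Fin n) → ℝ) (S : Finset (Fin n))
    (hS : S.card = 2) : W S ≤ FF l W := by
  obtain ⟨a, b, hab, rfl⟩ := card_eq_two.1 hS
  obtain ⟨K, hKs, hK⟩ := exists_subset_card_eq (s := (univ : Finset (Fin n)) \ {a, b}) (n := l - 1)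
    (by rw [card_univ_sdiff, hS, Fintype.card_fin]; omega)
  have ha : a ∉ K := fun h => by
    have := hKs h
    simp at this
  have hb : b ∉ K := fun h => by
    have := hKs h
    simp at this
  have hI : (insert a K).card = l := by rw [card_insert_of_notMem ha, hK]; omega
  have hJ : (insert b K).card = l := by rw [card_insert_of_notMem hb, hK]; omega
  set I : KS n l := ⟨insert a K, hI⟩ with hIdef
  set J : KS n l := ⟨insert b K, hJ⟩ with hJdef
  have hne : I ≠ J := by
    intro h
    have h1 : insert a K = insert b K := congrArg Subtype.val h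
    have h2 : a ∈ insert b K := by rw [← h1]; exact mem_insert_self a K
    rw [mem_insert] at h2
    exact h2.elim hab ha
  have hsd : symmDiff I.1 J.1 = {a, b} := by
    ext i
    simp only [hIdef, hJdef, mem_symmDiff, mem_insert, mem_singleton]
    constructor
    · rintro (⟨h1 | h1, h2⟩ | ⟨h1 | h1, h2⟩)
      · left; exact h1
      · exact absurd (Or.inr h1) h2
      · right; exact h1
      · exact absurd (Or.inr h1) h2
    · rintro (rfl | rfl)
      · left
        refine ⟨Or.inl rfl, ?_⟩
        rintro (h | h)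
        · exact hab h
        · exact ha h
      · right
        refine ⟨Or.inl rfl, ?_⟩
        rintro (h | h)
        · exact hab h.symm
        · exact hb h
  have hsd' : symmDiff J.1 I.1 = {a, b} := by rw [symmDiff_comm]; exact hsd
  set s : ℝ := 1 / Real.sqrt 2 with hs
  have hs2 : s ^ 2 = 1 / 2 := by
    rw [hs, div_pow, Real.sq_sqrt (by norm_num)]; norm_num
  refine le_csSup (VS_bdd W) ⟨fun L => if L = I then s else if L = J then s else 0, ?_, ?_⟩
  · rw [dot_sq, Fintype.sum_eq_add I J hne]
    · simp only [if_true, if_neg hne.symm]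
      linarith
    · intro L hL
      simp [hL.1, hL.2]
  · unfold B
    rw [Fintype.sum_eq_add I J hne]
    · rw [Fintype.sum_eq_single J, Fintype.sum_eq_single I]
      · rw [hsd, hsd', if_pos hS, if_pos hS]
        simp only [if_true, if_neg hne.symm]
        linear_combination (-2 * W {a, b}) * hs2
      · intro L hL
        by_cases h2 : L = J
        · rw [h2, symmDiff_self]; simp
        · simp [hL, h2]
      · intro L hL
        by_cases h2 : L = I
        · rw [h2, symmDiff_self]; simp
        · simp [hL, h2]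
    · intro L hL
      apply sum_eq_zero
      intro M _
      simp [hL.1, hL.2]

/-- a Gaussian variable is larger than `a` with positive probability -/
theorem gauss_lt_one (a : ℝ) : (gaussianReal 0 1) (Set.Iio a) < 1 := by
  have h1 : (gaussianReal 0 1) (Set.Ici a) ≠ 0 := by
    intro h
    have h2 := gaussianReal_absolutelyContinuous' 0 (v := 1) one_ne_zero h
    rw [Real.volume_Ici] at h2
    exact ENNReal.top_ne_zero h2
  have h3 : (gaussianReal 0 1) (Set.Iio a) + (gaussianReal 0 1) (Set.Ici a) = 1 := by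
    rw [← Set.compl_Iio]
    rw [measure_add_measure_compl measurableSet_Iio]
    exact measure_univ
  by_contra hcon
  rw [not_lt] at hcon
  have h4 : (gaussianReal 0 1) (Set.Iio a) ≤ 1 := prob_le_one
  have h5 : (gaussianReal 0 1) (Set.Iio a) = 1 := le_antisymm h4 hcon
  rw [h5] at h3
  apply h1
  have : (1 : ℝ≥0∞) + (gaussianReal 0 1) (Set.Ici a) = 1 + 0 := by rw [h3, add_zero]
  exact (ENNReal.add_right_inj ENNReal.one_ne_top).1 this

/-- all coordinates in `T` are small -/
theorem small_prob (a : ℝ) (T : Finset (Finset (Fin n))) :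
    (gam (Finset (Fin n))) {Z | ∀ S ∈ T, Z S < a} = (gaussianReal 0 1 (Set.Iio a)) ^ T.card := by
  classical
  have h1 : {Z : Finset (Fin n) → ℝ | ∀ S ∈ T, Z S < a} =
      Set.univ.pi (fun S => if S ∈ T then Set.Iio a else Set.univ) := by
    ext Z
    simp only [Set.mem_ofPred_eq, Set.mem_pi, Set.mem_univ, true_implies]
    constructor
    · intro h S
      split_ifs with hS
      · exact h S hS
      · exact Set.mem_univ _
    · intro h S hS
      have := h S
      rw [if_pos hS] at this
      exact this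
  rw [h1]
  unfold gam
  rw [Measure.pi_pi]
  have h2 : ∀ S : Finset (Fin n), (gaussianReal 0 1) (if S ∈ T then Set.Iio a else Set.univ) =
      if S ∈ T then (gaussianReal 0 1) (Set.Iio a) else 1 := by
    intro S
    split_ifs
    · rfl
    · exact measure_univ
  simp_rw [h2]
  rw [prod_ite_mem, univ_inter, prod_const]

theorem FF_int_ge (hl : 1 ≤ l) (hn : l + 1 ≤ n) (a : ℝ) (ha : 0 ≤ a) :
    a * (1 - ((gaussianReal 0 1).real (Set.Iio a)) ^ (n.choose 2)) ≤
      ∫ Z, FF l Z ∂(gam (Finset (Fin n))) := by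
  obtain ⟨h1, -, -⟩ := prove_MGF _ _ _ lip_pos (FF_lip (n := n) (l := l) (by omega))
  set T : Finset (Finset (Fin n)) := (univ : Finset (Fin n)).powersetCard 2 with hT
  have hTc : T.card = n.choose 2 := by rw [hT, card_powersetCard, card_univ, Fintype.card_fin]
  set A : Set (Finset (Fin n) → ℝ) := {Z | ∀ S ∈ T, Z S < a} with hA
  have hAm : MeasurableSet A := by
    have : A = ⋂ S ∈ T, {Z : Finset (Fin n) → ℝ | Z S < a} := by
      ext Z; simp [hA]
    rw [this]
    exact Finset.measurableSet_biInter _ fun S _ =>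
      measurableSet_lt (measurable_pi_apply S) measurable_const
  have h2 : ∫ Z, Aᶜ.indicator (fun _ => a) Z ∂(gam (Finset (Fin n))) ≤
      ∫ Z, FF l Z ∂(gam (Finset (Fin n))) := by
    apply integral_mono
    · exact (integrable_const a).indicator hAm.compl
    · exact h1
    · intro Z
      simp only
      by_cases hZ : Z ∈ A
      · rw [Set.indicator_of_notMem (by simpa using hZ)]
        exact FF_nonneg (by omega) Z
      · rw [Set.indicator_of_mem (by simpa using hZ)]
        simp only [hA, Set.mem_ofPred_eq, not_forall, not_lt] at hZ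
        obtain ⟨S, hS, hZS⟩ := hZ
        have hS2 : S.card = 2 := (mem_powersetCard.1 hS).2
        exact hZS.trans (FF_ge_one hl hn Z S hS2)
  rw [integral_indicator hAm.compl, setIntegral_const, smul_eq_mul] at h2
  have h3 : (gam (Finset (Fin n))).real Aᶜ = 1 - ((gaussianReal 0 1).real (Set.Iio a)) ^ (n.choose 2) := by
    rw [probReal_compl_eq_one_sub hAm]
    congr 1
    unfold Measure.real
    rw [hA, small_prob, ENNReal.toReal_pow, hTc]
  rw [h3] at h2
  linarith

theorem choose_tendsto : Filter.Tendsto (fun n : ℕ => n.choose 2) Filter.atTop Filter.atTop := by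
  apply Filter.tendsto_atTop_atTop.2
  intro b
  refine ⟨b + 2, fun n hn => ?_⟩
  have h1 : (b + 2).choose 2 ≤ n.choose 2 := Nat.choose_le_choose 2 hn
  have h2 : b ≤ (b + 2).choose 2 := by
    rw [Nat.choose_two_right]
    have : b * 2 ≤ (b + 2) * (b + 2 - 1) := by
      rw [show b + 2 - 1 = b + 1 by omega]
      nlinarith
    omega
  omega

/-- **The expectation tends to infinity.** -/
theorem FF_tendsto (hl : 1 ≤ l) : Filter.Tendsto
    (fun n : ℕ => ∫ Z, FF l Z ∂(gam (Finset (Fin n)))) Filter.atTop Filter.atTop := by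
  rw [Filter.tendsto_atTop]
  intro b
  set a : ℝ := 2 * |b| with ha
  have ha0 : 0 ≤ a := by positivity
  have h1 : (gaussianReal 0 1).real (Set.Iio a) < 1 := by
    have h := gauss_lt_one a
    unfold Measure.real
    rw [← ENNReal.toReal_one]
    exact (ENNReal.toReal_lt_toReal (ne_top_of_lt h) ENNReal.one_ne_top).2 h
  have h2 := (tendsto_pow_atTop_nhds_zero_of_lt_one measureReal_nonneg h1).comp choose_tendsto
  have h3 := h2.eventually (gt_mem_nhds (show (0 : ℝ) < 1 / 2 by norm_num))
  filter_upwards [h3, Filter.eventually_ge_atTop (l + 1)] with n hn hn1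
  simp only [Function.comp_apply] at hn
  have h4 := FF_int_ge hl hn1 a ha0
  have h5 : a * (1 / 2) ≤ a * (1 - ((gaussianReal 0 1).real (Set.Iio a)) ^ (n.choose 2)) :=
    mul_le_mul_of_nonneg_left (by linarith) ha0
  have h6 := le_abs_self b
  linarith

/-- the quadratic form of the frozen statement -/
theorem quad_eq (c : ℝ) (Z : Finset (Fin n) → ℝ) (v : KS n l → ℝ) :
    dotProduct v (Matrix.mulVec (Matrix.of fun I J : KS n l =>
      if (symmDiff I.1 J.1).card = 2 then c + Z (symmDiff I.1 J.1) else 0) v) =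
    B (fun S => c + Z S) v := by
  unfold B dotProduct Matrix.mulVec dotProduct
  refine sum_congr rfl fun I _ => ?_
  rw [mul_sum]
  refine sum_congr rfl fun J _ => ?_
  simp only [Matrix.of_apply]
  split_ifs
  · ring
  · ring

theorem sSup_eq (c : ℝ) (Z : Finset (Fin n) → ℝ) :
    sSup {t : ℝ | ∃ v : {K : Finset (Fin n) // K.card = l} → ℝ,
      dotProduct v v = 1 ∧
      t = dotProduct v (Matrix.mulVec
        (Matrix.of fun I J : {K : Finset (Fin n) // K.card = l} =>
          if (symmDiff I.1 J.1).card = 2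
          then c + Z (symmDiff I.1 J.1)
          else 0) v)} = FF l (fun S => c + Z S) := by
  unfold FF VS
  simp_rw [quad_eq]

end

end Pool.Agent.Y976.Kik
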