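import Pool.Agent.H320R2.LD.MGF

set_option autoImplicit false

/-!
# Gaussian product measures: shifts and sign changes
-/

namespace Pool.Agent.Y976.Kik

open MeasureTheory ProbabilityTheory Pool.Agent.H320R2.LD
open scoped ENNReal

noncomputable section

variable {V : Type} [Fintype V]

/-- the product density -/
def den (x : V → ℝ) : ℝ≥0∞ := ∏ i, gaussianPDF 0 1 (x i)

theorem den_meas : Measurable (den (V := V)) :=
  Finset.measurable_prod _ fun i _ => (measurable_gaussianPDF 0 1).comp (measurable_pi_apply i)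

theorem gam_den : gam V = (volume : Measure (V → ℝ)).withDensity den := by
  have h0 : gaussianReal 0 1 = (volume : Measure ℝ).withDensity (gaussianPDF 0 1) :=
    gaussianReal_of_var_ne_zero 0 one_ne_zero
  have : SigmaFinite ((volume : Measure ℝ).withDensity (gaussianPDF 0 1)) := by
    rw [← h0]; infer_instance
  unfold gam
  rw [show (fun _ : V => gaussianReal 0 1) =
    fun i : V => (volume : Measure ℝ).withDensity ((fun _ : V => gaussianPDF 0 1) i) from
      funext fun _ => h0]
  have h1 := Pool.Agent.Helper954.Hopf.AF.AF.pi_withDensity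
    (fun _ : V => gaussianPDF 0 1) (fun _ => measurable_gaussianPDF 0 1)
  rw [h1]
  rfl

/-- inner product -/
def ip (b x : V → ℝ) : ℝ := ∑ i, b i * x i

/-- Cameron-Martin density -/
def cmd (b x : V → ℝ) : ℝ := Real.exp (ip b x - nsq b / 2)

theorem cmd_meas (b : V → ℝ) : Measurable (cmd b) := by
  unfold cmd ip
  fun_prop

theorem cmd_pos (b x : V → ℝ) : 0 < cmd b x := Real.exp_pos _

theorem pdf_shift (b x : ℝ) : gaussianPDF 0 1 (x - b) =
    ENNReal.ofReal (Real.exp (b * x - b ^ 2 / 2)) * gaussianPDF 0 1 x := by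
  unfold gaussianPDF
  rw [← ENNReal.ofReal_mul (Real.exp_pos _).le]
  congr 1
  simp only [gaussianPDFReal, NNReal.coe_one, mul_one, sub_zero]
  rw [mul_left_comm, ← Real.exp_add]
  congr 2
  ring

theorem den_shift (b x : V → ℝ) : den (x - b) = ENNReal.ofReal (cmd b x) * den x := by
  unfold den cmd ip nsq
  rw [Finset.sum_div, ← Finset.sum_sub_distrib, Real.exp_sum,
    ENNReal.ofReal_prod_of_nonneg (fun i _ => (Real.exp_pos _).le), ← Finset.prod_mul_distrib]
  exact Finset.prod_congr rfl fun i _ => pdf_shift (b i) (x i)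

theorem cm_lint (b : V → ℝ) (f : (V → ℝ) → ℝ≥0∞) (hf : Measurable f) :
    ∫⁻ x, f (x + b) ∂(gam V) = ∫⁻ x, f x * ENNReal.ofReal (cmd b x) ∂(gam V) := by
  have hf1 : Measurable (fun x : V → ℝ => f (x + b)) := hf.comp (measurable_add_const b)
  have hf2 : Measurable (fun x : V → ℝ => f x * ENNReal.ofReal (cmd b x)) :=
    hf.mul (cmd_meas b).ennreal_ofReal
  rw [gam_den, lintegral_withDensity_eq_lintegral_mul _ den_meas hf1,
    lintegral_withDensity_eq_lintegral_mul _ den_meas hf2]
  have e := lintegral_add_right_eq_self (μ := (volume : Measure (V → ℝ)))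
      (fun x => den x * (f x * ENNReal.ofReal (cmd b x))) b
  refine Eq.trans ?_ e
  refine lintegral_congr fun x => ?_
  simp only [Pi.mul_apply]
  have h := den_shift b (x + b)
  rw [add_sub_cancel_right] at h
  rw [h]
  ring

theorem map_add (b : V → ℝ) : (gam V).map (fun x => x + b) =
    (gam V).withDensity (fun x => ENNReal.ofReal (cmd b x)) := by
  apply Measure.ext_of_lintegral
  intro f hf
  rw [lintegral_map hf (measurable_add_const b), cm_lint b f hf,
    lintegral_withDensity_eq_lintegral_mul _ (cmd_meas b).ennreal_ofReal hf]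
  refine lintegral_congr fun x => ?_
  simp only [Pi.mul_apply]
  ring

/-- Cameron-Martin for integrals -/
theorem cm_int (b : V → ℝ) (f : (V → ℝ) → ℝ) (hf : Measurable f) :
    ∫ x, f (x + b) ∂(gam V) = ∫ x, f x * cmd b x ∂(gam V) := by
  have h1 : ∫ x, f (x + b) ∂(gam V) = ∫ x, f x ∂((gam V).map (fun x => x + b)) := by
    rw [integral_map (measurable_add_const b).aemeasurable hf.aestronglyMeasurable]
  rw [h1, map_add, integral_withDensity_eq_integral_toReal_smul (cmd_meas b).ennreal_ofReal
    (Filter.Eventually.of_forall fun x => ENNReal.ofReal_lt_top)]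
  refine integral_congr_ae (Filter.Eventually.of_forall fun x => ?_)
  simp only [smul_eq_mul]
  rw [ENNReal.toReal_ofReal (cmd_pos b x).le, mul_comm]

theorem cm_integrable (b : V → ℝ) (f : (V → ℝ) → ℝ) (hf : Measurable f)
    (h : Integrable (fun x => f (x + b)) (gam V)) :
    Integrable (fun x => f x * cmd b x) (gam V) := by
  have h1 : Integrable f ((gam V).map (fun x => x + b)) := by
    rw [integrable_map_measure hf.aestronglyMeasurable (measurable_add_const b).aemeasurable]
    exact h
  rw [map_add, integrable_withDensity_iff_integrable_smul₀' (cmd_meas b).ennreal_ofReal.aemeasurable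
    (Filter.Eventually.of_forall fun x => ENNReal.ofReal_lt_top)] at h1
  refine h1.congr (Filter.Eventually.of_forall fun x => ?_)
  simp only [smul_eq_mul]
  rw [ENNReal.toReal_ofReal (cmd_pos b x).le, mul_comm]

theorem cmd_integrable (b : V → ℝ) : Integrable (cmd b) (gam V) := by
  have h := cm_integrable b (fun _ => (1 : ℝ)) measurable_const (integrable_const 1)
  simpa using h

theorem cmd_integral (b : V → ℝ) : ∫ x, cmd b x ∂(gam V) = 1 := by
  have h := cm_int b (fun _ => (1 : ℝ)) measurable_const
  simpa using h.symm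

theorem cmd_mul (b c x : V → ℝ) : cmd b x * cmd c x = Real.exp (ip b c) * cmd (b + c) x := by
  unfold cmd ip nsq
  rw [← Real.exp_add, ← Real.exp_add]
  congr 1
  simp only [Pi.add_apply]
  have h1 : ∑ i, (b i + c i) * x i = ∑ i, b i * x i + ∑ i, c i * x i := by
    rw [← Finset.sum_add_distrib]
    exact Finset.sum_congr rfl fun i _ => by ring
  have h2 : ∑ i, (b i + c i) ^ 2 = ∑ i, b i ^ 2 + ∑ i, c i ^ 2 + 2 * ∑ i, b i * c i := by
    rw [← Finset.sum_add_distrib, Finset.mul_sum, ← Finset.sum_add_distrib]
    exact Finset.sum_congr rfl fun i _ => by ring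
  rw [h1, h2]
  ring

theorem cmd_mul_integral (b c : V → ℝ) :
    ∫ x, cmd b x * cmd c x ∂(gam V) = Real.exp (ip b c) := by
  simp_rw [cmd_mul]
  rw [integral_const_mul, cmd_integral, mul_one]

theorem cmd_mul_integrable (b c : V → ℝ) : Integrable (fun x => cmd b x * cmd c x) (gam V) := by
  simp_rw [cmd_mul]
  exact (cmd_integrable _).const_mul _

/-- invariance under sign changes -/
theorem mp_sign (s : V → ℝ) (hs : ∀ i, s i ^ 2 = 1) :
    MeasurePreserving (fun x : V → ℝ => fun i => s i * x i) (gam V) (gam V) := by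
  unfold gam
  apply measurePreserving_pi (fun _ : V => gaussianReal 0 1) (fun _ : V => gaussianReal 0 1)
  intro i
  refine ⟨measurable_const_mul _, ?_⟩
  rw [gaussianReal_map_const_mul]
  congr 1
  · simp
  · ext
    simp [hs i]

theorem sign_int (s : V → ℝ) (hs : ∀ i, s i ^ 2 = 1) (f : (V → ℝ) → ℝ) (hf : Measurable f) :
    ∫ x, f (fun i => s i * x i) ∂(gam V) = ∫ x, f x ∂(gam V) := by
  have h := mp_sign s hs
  have h1 := integral_map (μ := gam V) (φ := fun x : V → ℝ => fun i => s i * x i)
    h.measurable.aemeasurable (f := f) hf.aestronglyMeasurable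
  rw [h.map_eq] at h1
  exact h1.symm

end

end Pool.Agent.Y976.Kik
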