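import Pool.Agent.Y976.Kik.CM

set_option autoImplicit false

/-!
# The chi-square distance to the spiked model
-/

namespace Pool.Agent.Y976.Kik

open MeasureTheory ProbabilityTheory Pool.Agent.H320R2.LD Finset
open scoped ENNReal

noncomputable section

variable {n : ℕ}

/-- real sign -/
def rs (x : Fin n → ℤˣ) (i : Fin n) : ℝ := ((x i : ℤ) : ℝ)

theorem rs_sq (x : Fin n → ℤˣ) (i : Fin n) : rs x i ^ 2 = 1 := by
  unfold rs
  rcases Int.units_eq_one_or (x i) with h | h <;> simp [h]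

theorem rs_mul (x y : Fin n → ℤˣ) (i : Fin n) : rs (x * y) i = rs x i * rs y i := by
  unfold rs
  simp

/-- product of signs -/
def sg (x : Fin n → ℤˣ) (S : Finset (Fin n)) : ℝ := ∏ i ∈ S, rs x i

theorem sg_mul (x y : Fin n → ℤˣ) (S : Finset (Fin n)) : sg (x * y) S = sg x S * sg y S := by
  unfold sg
  rw [← prod_mul_distrib]
  exact prod_congr rfl fun i _ => rs_mul x y i

theorem sg_sq (x : Fin n → ℤˣ) (S : Finset (Fin n)) : sg x S ^ 2 = 1 := by
  unfold sg
  rw [← prod_pow]
  exact prod_eq_one fun i _ => rs_sq x i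

theorem sg_symmDiff (x : Fin n → ℤˣ) (I J : Finset (Fin n)) :
    sg x (symmDiff I J) = sg x I * sg x J := by
  unfold sg
  have h1 : ∏ i ∈ I, rs x i = (∏ i ∈ I \ J, rs x i) * ∏ i ∈ I ∩ J, rs x i := by
    rw [mul_comm, prod_inter_mul_prod_sdiff]
  have h2 : ∏ i ∈ J, rs x i = (∏ i ∈ J \ I, rs x i) * ∏ i ∈ I ∩ J, rs x i := by
    rw [mul_comm, inter_comm, prod_inter_mul_prod_sdiff]
  have h3 : (∏ i ∈ I ∩ J, rs x i) ^ 2 = 1 := by
    rw [← prod_pow]
    exact prod_eq_one fun i _ => rs_sq x i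
  rw [h1, h2, symmDiff_def, sup_eq_union, prod_union disjoint_sdiff_sdiff]
  calc _ = (∏ i ∈ I \ J, rs x i) * (∏ i ∈ J \ I, rs x i) * (∏ i ∈ I ∩ J, rs x i) ^ 2 := by
        rw [h3, mul_one]
    _ = _ := by ring

/-- the second elementary symmetric polynomial -/
theorem sum_pairs (z : Fin n → ℝ) :
    2 * ∑ S : Finset (Fin n), (if S.card = 2 then ∏ i ∈ S, z i else 0) =
      (∑ i, z i) ^ 2 - ∑ i, z i ^ 2 := by
  have h1 : (∑ i, z i) ^ 2 - ∑ i, z i ^ 2 =
      ∑ q ∈ (univ : Finset (Fin n × Fin n)).filter (fun q => q.1 ≠ q.2), z q.1 * z q.2 := by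
    rw [sq, sum_mul_sum, ← sum_product', univ_product_univ,
      ← sum_filter_add_sum_filter_not univ (fun q : Fin n × Fin n => q.1 ≠ q.2)]
    have h2 : ∑ q ∈ (univ : Finset (Fin n × Fin n)).filter (fun q => ¬ q.1 ≠ q.2),
        z q.1 * z q.2 = ∑ i, z i ^ 2 := by
      symm
      apply sum_bij (fun i _ => (i, i))
      · intro i _; simp
      · intro i _ j _ h; simpa using h
      · rintro ⟨i, j⟩ h
        simp only [mem_filter, mem_univ, true_and, ne_eq, not_not] at h
        exact ⟨i, mem_univ _, by simp [h]⟩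
      · intro i _; ring
    rw [h2]
    ring
  rw [h1]
  have hmaps : ∀ q ∈ (univ : Finset (Fin n × Fin n)).filter (fun q => q.1 ≠ q.2),
      (({q.1, q.2} : Finset (Fin n))) ∈ (univ : Finset (Finset (Fin n))) := fun _ _ => mem_univ _
  rw [← sum_fiberwise_of_maps_to hmaps, mul_sum]
  apply sum_congr rfl
  intro S _
  by_cases hS : S.card = 2
  · rw [if_pos hS]
    obtain ⟨a, b, hab, rfl⟩ := card_eq_two.1 hS
    have hfib : ((univ : Finset (Fin n × Fin n)).filter (fun q => q.1 ≠ q.2)).filter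
      (fun q => ({q.1, q.2} : Finset (Fin n)) = {a, b}) = {(a, b), (b, a)} := by
      ext ⟨c, d⟩
      simp only [mem_filter, mem_univ, true_and, mem_insert, mem_singleton, Prod.mk.injEq]
      constructor
      · rintro ⟨hcd, hS'⟩
        have hc : c ∈ ({a, b} : Finset (Fin n)) := by rw [← hS']; simp
        have hd : d ∈ ({a, b} : Finset (Fin n)) := by rw [← hS']; simp
        simp only [mem_insert, mem_singleton] at hc hd
        rcases hc with rfl | rfl <;> rcases hd with rfl | rfl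
        · exact absurd rfl hcd
        · left; exact ⟨rfl, rfl⟩
        · right; exact ⟨rfl, rfl⟩
        · exact absurd rfl hcd
      · rintro (⟨rfl, rfl⟩ | ⟨rfl, rfl⟩)
        · exact ⟨hab, rfl⟩
        · exact ⟨Ne.symm hab, pair_comm _ _⟩
    rw [hfib, sum_pair (by simp [hab]), prod_pair hab]
    ring
  · rw [if_neg hS, mul_zero]
    symm
    apply sum_eq_zero
    intro q hq
    simp only [mem_filter, mem_univ, true_and] at hq
    exfalso
    apply hS
    rw [← hq.2, card_pair hq.1]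

/-- the spike -/
def bb (lam : ℝ) (x : Fin n → ℤˣ) (S : Finset (Fin n)) : ℝ := if S.card = 2 then lam * sg x S else 0

theorem ip_bb (lam : ℝ) (x y : Fin n → ℤˣ) :
    ip (bb lam x) (bb lam y) = lam ^ 2 / 2 * ((∑ i, rs (x * y) i) ^ 2 - n) := by
  have h1 := sum_pairs (rs (x * y))
  have h2 : ∑ i : Fin n, rs (x * y) i ^ 2 = n := by
    rw [sum_congr rfl (fun i _ => rs_sq (x * y) i)]
    simp
  rw [h2] at h1
  rw [← h1]
  unfold ip bb
  rw [mul_sum, mul_sum]
  apply sum_congr rfl
  intro S _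
  split_ifs
  · have h3 := sg_mul x y S
    unfold sg at h3 ⊢
    rw [h3]
    ring
  · ring

/-- average over the signs -/
def av (f : (Fin n → ℤˣ) → ℝ) : ℝ := (∑ x, f x) / 2 ^ n

theorem card_signs : Fintype.card (Fin n → ℤˣ) = 2 ^ n := by
  rw [Fintype.card_fun, Fintype.card_units_int, Fintype.card_fin]

theorem av_exp (a : ℝ) : av (fun x : Fin n → ℤˣ => Real.exp (a * ∑ i, rs x i)) = Real.cosh a ^ n := by
  unfold av
  have h1 : ∀ x : Fin n → ℤˣ, Real.exp (a * ∑ i, rs x i) = ∏ i, Real.exp (a * ((x i : ℤ) : ℝ)) := by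
    intro x
    rw [mul_sum, Real.exp_sum]
    rfl
  simp_rw [h1]
  have h2 := Finset.prod_univ_sum (fun _ : Fin n => (univ : Finset ℤˣ))
    (fun _ u => Real.exp (a * ((u : ℤ) : ℝ)))
  rw [Fintype.piFinset_univ] at h2
  rw [← h2, prod_const, card_univ, Fintype.card_fin, ← div_pow]
  congr 1
  have h3 : (univ : Finset ℤˣ) = {1, -1} := by decide
  rw [h3, sum_pair (by decide), Real.cosh_eq]
  simp

theorem exp_sq_eq (c s : ℝ) :
    Real.exp ((c * s) ^ 2 / 2) = ∫ g, Real.exp ((c * g) * s) ∂(gaussianReal 0 1) := by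
  have h := congrFun (mgf_id_gaussianReal (μ := 0) (v := 1)) (c * s)
  unfold mgf at h
  simp only [id, zero_mul, zero_add, NNReal.coe_one, one_mul] at h
  rw [← h]
  congr 1
  funext g
  congr 1
  ring

theorem int_exp (c s : ℝ) : Integrable (fun g => Real.exp ((c * g) * s)) (gaussianReal 0 1) := by
  have h := integrable_exp_mul_gaussianReal (μ := 0) (v := 1) (c * s)
  refine h.congr (Filter.Eventually.of_forall fun g => ?_)
  simp only
  congr 1
  ring

theorem int_quarter : Integrable (fun g : ℝ => Real.exp (g ^ 2 / 8)) (gaussianReal 0 1) := by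
  rw [gaussianReal_of_var_ne_zero 0 one_ne_zero]
  rw [integrable_withDensity_iff_integrable_smul₀' (measurable_gaussianPDF 0 1).aemeasurable
    (Filter.Eventually.of_forall fun x => by unfold gaussianPDF; exact ENNReal.ofReal_lt_top)]
  have h := (integrable_exp_neg_mul_sq (b := 3 / 8) (by norm_num)).const_mul ((√(2 * Real.pi))⁻¹)
  refine h.congr (Filter.Eventually.of_forall fun g => ?_)
  simp only [smul_eq_mul]
  rw [toReal_gaussianPDF]
  simp only [gaussianPDFReal, NNReal.coe_one, mul_one, sub_zero]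
  rw [mul_assoc, ← Real.exp_add]
  congr 2
  ring

/-- the constant -/
def CX : ℝ := ∫ g, Real.exp (g ^ 2 / 8) ∂(gaussianReal 0 1)

theorem av_sq_le (hn : 0 < n) :
    av (fun x : Fin n → ℤˣ => Real.exp ((∑ i, rs x i) ^ 2 / (8 * n))) ≤ CX := by
  have hn' : (0 : ℝ) < n := by exact_mod_cast hn
  set c : ℝ := 1 / (2 * Real.sqrt n) with hc
  have hc2 : c ^ 2 = 1 / (4 * n) := by
    rw [hc, div_pow, mul_pow, Real.sq_sqrt hn'.le]
    norm_num
  have h1 : ∀ x : Fin n → ℤˣ, Real.exp ((∑ i, rs x i) ^ 2 / (8 * n)) =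
      ∫ g, Real.exp ((c * g) * ∑ i, rs x i) ∂(gaussianReal 0 1) := by
    intro x
    rw [← exp_sq_eq]
    congr 1
    rw [mul_pow, hc2]
    field_simp
    ring
  unfold av
  simp_rw [h1]
  rw [← integral_finsetSum _ (fun x _ => int_exp c _), ← integral_div]
  unfold CX
  apply integral_mono
  · exact (integrable_finsetSum _ (fun x _ => int_exp c _)).div_const _
  · exact int_quarter
  · intro g
    simp only
    have h2 := av_exp (n := n) (c * g)
    unfold av at h2
    rw [h2]
    calc Real.cosh (c * g) ^ n ≤ Real.exp ((c * g) ^ 2 / 2) ^ n :=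
          pow_le_pow_left₀ (Real.cosh_pos _).le (Real.cosh_le_exp_half_sq _) n
      _ = Real.exp (g ^ 2 / 8) := by
          rw [← Real.exp_nat_mul, mul_pow, hc2]
          congr 1
          field_simp
          ring

/-- the likelihood ratio -/
def LR (lam : ℝ) (Z : Finset (Fin n) → ℝ) : ℝ := av (fun x => cmd (bb lam x) Z)

theorem LR_meas (lam : ℝ) : Measurable (LR (n := n) lam) := by
  unfold LR av
  exact (Finset.measurable_sum _ fun x _ => cmd_meas _).div_const _

theorem LR_integrable (lam : ℝ) : Integrable (LR (n := n) lam) (gam (Finset (Fin n))) := by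
  unfold LR av
  exact (integrable_finsetSum _ (fun x _ => cmd_integrable _)).div_const _

theorem LR_integral (lam : ℝ) : ∫ Z, LR (n := n) lam Z ∂(gam (Finset (Fin n))) = 1 := by
  unfold LR av
  rw [integral_div, integral_finsetSum _ (fun x _ => cmd_integrable _)]
  simp_rw [cmd_integral]
  rw [sum_const, card_univ, card_signs, nsmul_eq_mul, mul_one]
  push_cast
  exact div_self (by positivity)

theorem LR_sq (lam : ℝ) (Z : Finset (Fin n) → ℝ) : LR lam Z ^ 2 =
    (∑ x : Fin n → ℤˣ, ∑ y : Fin n → ℤˣ, cmd (bb lam x) Z * cmd (bb lam y) Z) / (2 ^ n * 2 ^ n) := by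
  unfold LR av
  rw [div_pow, sq, sum_mul_sum, sq]

theorem LR_sq_integrable (lam : ℝ) :
    Integrable (fun Z => LR (n := n) lam Z ^ 2) (gam (Finset (Fin n))) := by
  simp_rw [LR_sq]
  exact (integrable_finsetSum _ (fun x _ => integrable_finsetSum _
    (fun y _ => cmd_mul_integrable _ _))).div_const _

theorem LR_sq_integral (hn : 0 < n) (lam : ℝ) (hlam : lam ^ 2 = 1 / (4 * n)) :
    ∫ Z, LR (n := n) lam Z ^ 2 ∂(gam (Finset (Fin n))) ≤ CX := by
  have hn' : (0 : ℝ) < n := by exact_mod_cast hn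
  simp_rw [LR_sq]
  rw [integral_div, integral_finsetSum _ (fun x _ => integrable_finsetSum _
    (fun y _ => cmd_mul_integrable _ _))]
  have h1 : ∀ x : Fin n → ℤˣ, ∫ Z, ∑ y : Fin n → ℤˣ, cmd (bb lam x) Z * cmd (bb lam y) Z
      ∂(gam (Finset (Fin n))) = ∑ y : Fin n → ℤˣ, Real.exp (lam ^ 2 / 2 * ((∑ i, rs y i) ^ 2 - n)) := by
    intro x
    rw [integral_finsetSum _ (fun y _ => cmd_mul_integrable _ _)]
    simp_rw [cmd_mul_integral, ip_bb]
    exact Fintype.sum_equiv (Equiv.mulLeft x) _ _ (fun y => rfl)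
  simp_rw [h1]
  rw [sum_const, card_univ, card_signs, nsmul_eq_mul]
  push_cast
  rw [mul_div_mul_left _ _ (by positivity)]
  refine le_trans ?_ (av_sq_le hn)
  unfold av
  apply div_le_div_of_nonneg_right _ (by positivity)
  apply sum_le_sum
  intro y _
  apply Real.exp_le_exp.2
  rw [hlam]
  have h2 : (1 : ℝ) / (4 * n) / 2 * ((∑ i, rs y i) ^ 2 - n) = (∑ i, rs y i) ^ 2 / (8 * n) - 1 / 8 := by
    field_simp
    ring
  rw [h2]
  linarith

end

end Pool.Agent.Y976.Kik
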